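import Pool.Agent.H353R7.G5
import Pool.Agent.J4H34.HF.H9

/-!
The local structure with a separate bound for the logarithmic derivative of the Euler product.
-/

set_option autoImplicit false

open Complex Set MeasureTheory Filter Topology
open scoped ComplexConjugate Nat

namespace Pool.Agent.J4H34.QD

open H353.E H353.F

variable {C B σ : ℝ} {Sg : ℝ → ℝ} {Λ γ D : ℂ → ℂ}

/-- the local structure -/
theorem loc_of2 (S : Sharp C B σ Sg Λ γ D) {δ κ R η t w0 ℓ Rm Q1 Q2 : ℝ} {n : ℕ} (hδ : 0 < δ) (hδ' : δ ≤ 1 / 2)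
    (hκ : 0 ≤ κ) (hκ' : κ ≤ δ / 1000000) (hη : 0 < η) (hw : σ - 1 / 2 + η ≤ w0 * (1 - δ))
    (hwR : w0 ≤ R) (hn : 1000000000000 ≤ (n : ℝ)) (hnδ : 10000 / δ ^ 2 ≤ (n : ℝ))
    (hℓ : ℓ = (D (3 / 2 + t * I)).re) (hwℓ : w0 * ℓ = n) (hRm : Rm = σ + 4 + 6 * R)
    (hQ1 : ∀ z : ℂ, σ + η ≤ z.re → ‖Qf Λ γ z‖ ≤ Q1) (hQ2 : ∀ z : ℂ, σ + η ≤ z.re → ‖deriv (Qf Λ γ) z‖ ≤ Q2)
    (h1 : C * (1 + Rm) + Q1 ≤ κ * ℓ) (h2 : R * (C + Q2) ≤ κ * ℓ)
    (h3 : B * Real.exp (C * (1 + Rm) * Rm) ≤ Real.exp (κ * n)) :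
    Loc (fun s => Λ (1 / 2 + w0 * (s - 1 / 2)))
      (fun u => w0 * (D (1 / 2 + t * I + w0 * u) + Qf Λ γ (1 / 2 + t * I + w0 * u)))
      n δ κ (‖γ (σ + t * I)‖ * Real.exp (-(ℓ * (σ - 1 / 2)))) (t / w0) 2 := by
  have hC := S.hC
  have hB := S.hB
  have hσ := S.hσ
  have hn0 : (0 : ℝ) < n := by linarith
  have hw0 : 0 < w0 := by nlinarith
  have hw1 : 1 / 2 ≤ w0 := by nlinarith
  have hℓ0 : 0 < ℓ := by
    by_contra hc
    push Not at hc
    nlinarith
  have hRpos : 0 < R := by linarith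
  have hRm1 : 1 ≤ Rm := by rw [hRm]; linarith
  have hRm0 : 0 < Rm := by linarith
  -- the base point
  have hs1 : (1 : ℝ) ≤ (3 / 2 + t * I : ℂ).re := by simp; norm_num
  have hDl : ∀ z : ℂ, 1 ≤ z.re → ‖z - (3 / 2 + t * I)‖ ≤ Rm → ‖D z - ℓ‖ ≤ C * (1 + Rm) := by
    intro z hz1 hz2
    have h4 := S.gp.lipD (ρ := 1) le_rfl hz1 hs1
    rw [div_one] at h4
    have h5 := S.gp.im _ hs1
    have h6 : ‖D (3 / 2 + t * I) - ℓ‖ ≤ C := by
      have e : D (3 / 2 + t * I) - ℓ = ((D (3 / 2 + t * I)).im : ℂ) * I := by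
        rw [hℓ]
        apply Complex.ext <;> simp
      rw [e, norm_mul, norm_I, mul_one, Complex.norm_real]
      exact h5
    calc ‖D z - ℓ‖ = ‖(D z - D (3 / 2 + t * I)) + (D (3 / 2 + t * I) - ℓ)‖ := by ring_nf
      _ ≤ ‖D z - D (3 / 2 + t * I)‖ + ‖D (3 / 2 + t * I) - ℓ‖ := norm_add_le _ _
      _ ≤ C * Rm + C := by
          refine add_le_add (h4.trans ?_) h6
          gcongr
      _ = C * (1 + Rm) := by ring
  have hcc : ∀ u : ℂ, (1 / 2 : ℂ) + w0 * (cc (t / w0) + u - 1 / 2) = 1 / 2 + t * I + w0 * u := by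
    intro u
    unfold cc
    have : (w0 : ℂ) ≠ 0 := by exact_mod_cast hw0.ne'
    push_cast
    field_simp
    ring
  have hzre : ∀ u : ℂ, (1 / 2 + t * I + w0 * u : ℂ).re = 1 / 2 + w0 * u.re := fun u => by
    rw [add_re, Complex.re_ofReal_mul]
    simp
  have hzim : ∀ u : ℂ, (1 / 2 + t * I + w0 * u : ℂ).im = t + w0 * u.im := fun u => by
    rw [add_im, Complex.im_ofReal_mul]
    simp
  have hunorm : ∀ u : ℂ, |u.re| ≤ 4 → |u.im| ≤ 2 → ‖(w0 : ℂ) * u‖ ≤ 6 * R := fun u hu1 hu2 => by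
    rw [norm_mul, Complex.norm_real, Real.norm_eq_abs, abs_of_pos hw0]
    have h5 := Complex.norm_le_abs_re_add_abs_im u
    calc w0 * ‖u‖ ≤ R * 6 := by
          gcongr
          linarith
      _ = 6 * R := by ring
  have hdist : ∀ u : ℂ, |u.re| ≤ 4 → |u.im| ≤ 2 →
      ‖(1 / 2 + t * I + w0 * u : ℂ) - (3 / 2 + t * I)‖ ≤ Rm := fun u hu1 hu2 => by
    have e : (1 / 2 + t * I + w0 * u : ℂ) - (3 / 2 + t * I) = w0 * u - 1 := by ring
    rw [e]
    refine (norm_sub_le _ _).trans ?_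
    rw [norm_one, hRm]
    linarith [hunorm u hu1 hu2]
  -- region facts
  have hregre : ∀ u : ℂ, 1 - δ ≤ u.re → σ + η ≤ (1 / 2 + t * I + w0 * u : ℂ).re := fun u hu => by
    rw [hzre]
    nlinarith
  have habs4 : ∀ u : ℂ, 1 - δ ≤ u.re → u.re ≤ 2 + 2 → |u.re| ≤ 4 := fun u hu1 hu2 => by
    rw [abs_le]
    constructor <;> linarith
  -- the gamma factor between `σ + it` and a point
  have hmove : ∀ z1 z2 : ℂ, 1 ≤ z1.re → 1 ≤ z2.re → ‖z1 - (3 / 2 + t * I)‖ ≤ Rm →
      ‖z2 - (3 / 2 + t * I)‖ ≤ Rm → ‖z2 - z1‖ ≤ Rm →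
      ‖γ z2‖ ≤ ‖γ z1‖ * Real.exp (ℓ * (z2.re - z1.re) + C * (1 + Rm) * Rm) := by
    intro z1 z2 a1 a2 a3 a4 a5
    have h5 := gam_move S.gp (s := z1) (v := z2 - z1) (ℓ := ℓ) (K := C * (1 + Rm)) a1
      (by rwa [add_sub_cancel]) (fun τ hτ => by
        have hconv : z1 + τ * (z2 - z1) = (1 - τ) • z1 + τ • z2 := by
          simp only [Complex.real_smul]
          push_cast
          ring
        refine hDl _ ?_ ?_
        · rw [hconv, add_re, Complex.real_smul, Complex.real_smul, Complex.re_ofReal_mul,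
            Complex.re_ofReal_mul]
          nlinarith [hτ.1, hτ.2]
        · have e : z1 + τ * (z2 - z1) - (3 / 2 + t * I) = (1 - τ) • (z1 - (3 / 2 + t * I)) +
              τ • (z2 - (3 / 2 + t * I)) := by
            simp only [Complex.real_smul]
            push_cast
            ring
          rw [e]
          refine (norm_add_le _ _).trans ?_
          rw [norm_smul, norm_smul, Real.norm_eq_abs, Real.norm_eq_abs, abs_of_nonneg hτ.1,
            abs_of_nonneg (by linarith [hτ.2])]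
          nlinarith [hτ.1, hτ.2])
    rw [add_sub_cancel] at h5
    refine h5.trans ?_
    refine mul_le_mul_of_nonneg_left (Real.exp_le_exp.mpr ?_) (norm_nonneg _)
    rw [sub_re]
    have : C * (1 + Rm) * ‖z2 - z1‖ ≤ C * (1 + Rm) * Rm := by gcongr
    linarith
  have hσt : (σ + t * I : ℂ).re = σ := by simp
  have hσd : ‖(σ + t * I : ℂ) - (3 / 2 + t * I)‖ ≤ Rm := by
    have e : (σ + t * I : ℂ) - (3 / 2 + t * I) = ((σ - 3 / 2 : ℝ) : ℂ) := by push_cast; ring
    rw [e, Complex.norm_real, Real.norm_eq_abs, hRm, abs_le]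
    constructor <;> linarith
  have hG0 : 0 < ‖γ (σ + t * I)‖ := norm_pos_iff.mpr (S.gp.ne _ (by rw [hσt]; exact hσ))
  set G := ‖γ (σ + t * I)‖ * Real.exp (-(ℓ * (σ - 1 / 2))) with hG
  have hGe : ‖γ (σ + t * I)‖ = G * Real.exp (ℓ * (σ - 1 / 2)) := by
    rw [hG, mul_assoc, ← Real.exp_add]
    simp
  have hGpos : 0 < G := by positivity
  -- upper bound for nonnegative real part
  have hup : ∀ u : ℂ, 0 ≤ u.re → u.re ≤ 2 + 2 → |u.im| ≤ 2 →
      ‖Λ (1 / 2 + t * I + w0 * u)‖ ≤ G * Real.exp (n * max |u.re| (1 - δ) + κ * n) := by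
    intro u hu0 hu1 hu2
    have hu4 : |u.re| ≤ 4 := by rw [abs_of_nonneg hu0]; linarith
    have hmax1 : u.re ≤ max |u.re| (1 - δ) := (le_abs_self _).trans (le_max_left _ _)
    have hmax2 : 1 - δ ≤ max |u.re| (1 - δ) := le_max_right _ _
    rcases le_total σ (1 / 2 + w0 * u.re) with h | h
    · have h4 := S.hi (1 / 2 + t * I + w0 * u) (by rw [hzre]; exact h)
      have h5 := hmove (σ + t * I) (1 / 2 + t * I + w0 * u) (by rw [hσt]; exact hσ)
        (by rw [hzre]; linarith) hσd (hdist u hu4 hu2) (by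
          have e : (1 / 2 + t * I + w0 * u : ℂ) - (σ + t * I) = w0 * u - ((σ - 1 / 2 : ℝ) : ℂ) := by
            push_cast; ring
          rw [e]
          refine (norm_sub_le _ _).trans ?_
          rw [Complex.norm_real, Real.norm_eq_abs, abs_of_nonneg (by linarith), hRm]
          linarith [hunorm u hu4 hu2])
      rw [hzre, hσt, hGe] at h5
      calc ‖Λ (1 / 2 + t * I + w0 * u)‖ ≤ B * ‖γ (1 / 2 + t * I + w0 * u)‖ := h4
        _ ≤ B * (G * Real.exp (ℓ * (σ - 1 / 2)) *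
            Real.exp (ℓ * (1 / 2 + w0 * u.re - σ) + C * (1 + Rm) * Rm)) := by gcongr
        _ = G * ((B * Real.exp (C * (1 + Rm) * Rm)) * Real.exp (w0 * ℓ * u.re)) := by
            rw [mul_assoc G, ← Real.exp_add, mul_assoc B, ← Real.exp_add]
            have : ℓ * (σ - 1 / 2) + (ℓ * (1 / 2 + w0 * u.re - σ) + C * (1 + Rm) * Rm) =
              C * (1 + Rm) * Rm + w0 * ℓ * u.re := by ring
            rw [this]
            ring
        _ ≤ G * (Real.exp (κ * n) * Real.exp (n * max |u.re| (1 - δ))) := by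
            rw [hwℓ]
            gcongr
        _ = G * Real.exp (n * max |u.re| (1 - δ) + κ * n) := by
            rw [← Real.exp_add, add_comm]
    · have h4 := S.strip (1 / 2 + t * I + w0 * u) (by rw [hzre]; nlinarith) (by rw [hzre]; exact h)
      rw [hzim] at h4
      have hpt : (σ + ((t + w0 * u.im : ℝ) : ℂ) * I : ℂ).re = σ := by simp
      have hvd : |w0 * u.im| ≤ 2 * R := by
        rw [abs_mul, abs_of_pos hw0]
        nlinarith [abs_nonneg u.im]
      have h5 := hmove (σ + t * I) (σ + ((t + w0 * u.im : ℝ) : ℂ) * I) (by rw [hσt]; exact hσ)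
        (by rw [hpt]; exact hσ) hσd (by
          have e : (σ + ((t + w0 * u.im : ℝ) : ℂ) * I : ℂ) - (3 / 2 + t * I) =
            ((σ - 3 / 2 : ℝ) : ℂ) + ((w0 * u.im : ℝ) : ℂ) * I := by push_cast; ring
          rw [e]
          refine (norm_add_le _ _).trans ?_
          rw [norm_mul, norm_I, mul_one, Complex.norm_real, Complex.norm_real, Real.norm_eq_abs,
            Real.norm_eq_abs, hRm]
          have : |σ - 3 / 2| ≤ σ + 2 := by rw [abs_le]; constructor <;> linarith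
          linarith) (by
          have e : (σ + ((t + w0 * u.im : ℝ) : ℂ) * I : ℂ) - (σ + t * I) =
            ((w0 * u.im : ℝ) : ℂ) * I := by push_cast; ring
          rw [e, norm_mul, norm_I, mul_one, Complex.norm_real, Real.norm_eq_abs, hRm]
          linarith)
      rw [hpt, hσt, sub_self, mul_zero, zero_add, hGe] at h5
      calc ‖Λ (1 / 2 + t * I + w0 * u)‖ ≤ B * ‖γ (σ + ((t + w0 * u.im : ℝ) : ℂ) * I)‖ := h4
        _ ≤ B * (G * Real.exp (ℓ * (σ - 1 / 2)) * Real.exp (C * (1 + Rm) * Rm)) := by gcongr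
        _ = G * ((B * Real.exp (C * (1 + Rm) * Rm)) * Real.exp (ℓ * (σ - 1 / 2))) := by ring
        _ ≤ G * (Real.exp (κ * n) * Real.exp (n * max |u.re| (1 - δ))) := by
            have h6 : ℓ * (σ - 1 / 2) ≤ n * max |u.re| (1 - δ) := by
              calc ℓ * (σ - 1 / 2) ≤ ℓ * (w0 * (1 - δ)) := by
                    gcongr
                    linarith
                _ = n * (1 - δ) := by rw [← hwℓ]; ring
                _ ≤ n * max |u.re| (1 - δ) := by gcongr
            gcongr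
        _ = G * Real.exp (n * max |u.re| (1 - δ) + κ * n) := by
            rw [← Real.exp_add, add_comm]
  obtain ⟨ε, hε, hfe⟩ := S.fe
  refine
    { diff := ?_, fe := ⟨ε, hε, fun s => ?_⟩, der := ?_, dP := ?_, ddP := ?_, up := ?_, lo := ?_,
      hG := hGpos, hδ := hδ, hδ' := hδ', hκ := hκ, hκ' := hκ', hX := by norm_num, hn := hn,
      hnδ := hnδ }
  · have := S.diff
    fun_prop
  · rw [hfe]
    congr 3
    rw [map_add, map_mul, map_sub, Complex.conj_ofReal]
    simp only [map_div₀, map_one, map_ofNat]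
    ring_nf
  · intro u hu1 hu2 hu3
    have h4 := lam_der S (z := 1 / 2 + t * I + w0 * u) (by linarith [hregre u hu1])
    have h5 : HasDerivAt (fun s : ℂ => (1 / 2 : ℂ) + w0 * (s - 1 / 2)) w0 (cc (t / w0) + u) := by
      have := (((hasDerivAt_id (cc (t / w0) + u)).sub_const (1 / 2)).const_mul (w0 : ℂ)).const_add
        (1 / 2 : ℂ)
      simpa using this
    rw [← hcc u] at h4
    have h7 := HasDerivAt.comp (cc (t / w0) + u) h4 h5
    refine h7.congr_deriv ?_
    show Λ (1 / 2 + w0 * (cc (t / w0) + u - 1 / 2)) * (D (1 / 2 + w0 * (cc (t / w0) + u - 1 / 2)) +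
      Qf Λ γ (1 / 2 + w0 * (cc (t / w0) + u - 1 / 2))) * w0 =
      Λ (1 / 2 + w0 * (cc (t / w0) + u - 1 / 2)) *
      (w0 * (D (1 / 2 + t * I + w0 * u) + Qf Λ γ (1 / 2 + t * I + w0 * u)))
    rw [hcc]
    ring
  · intro u hu1 hu2 hu3
    have hre := hregre u hu1
    have h4 := hDl (1 / 2 + t * I + w0 * u) (by linarith) (hdist u (habs4 u hu1 hu2) hu3)
    have h5 := hQ1 (1 / 2 + t * I + w0 * u) hre
    have e : (w0 : ℂ) * (D (1 / 2 + t * I + w0 * u) + Qf Λ γ (1 / 2 + t * I + w0 * u)) - n =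
        w0 * ((D (1 / 2 + t * I + w0 * u) - ℓ) + Qf Λ γ (1 / 2 + t * I + w0 * u)) := by
      have : (n : ℂ) = w0 * ℓ := by
        have := congrArg (fun x : ℝ => (x : ℂ)) hwℓ
        simp only [ofReal_mul, ofReal_natCast] at this
        exact this.symm
      rw [this]
      ring
    show ‖(w0 : ℂ) * (D (1 / 2 + t * I + w0 * u) + Qf Λ γ (1 / 2 + t * I + w0 * u)) - n‖ ≤ κ * n
    rw [e, norm_mul, Complex.norm_real, Real.norm_eq_abs, abs_of_pos hw0]
    calc w0 * ‖(D (1 / 2 + t * I + w0 * u) - ℓ) + Qf Λ γ (1 / 2 + t * I + w0 * u)‖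
        ≤ w0 * (C * (1 + Rm) + Q1) := by
          gcongr
          exact (norm_add_le _ _).trans (add_le_add h4 h5)
      _ ≤ w0 * (κ * ℓ) := by gcongr
      _ = κ * n := by rw [← hwℓ]; ring
  · intro u hu1 hu2 hu3
    have hre := hregre u hu1
    obtain ⟨d, hd1, hd2⟩ := S.gp.dD (1 / 2 + t * I + w0 * u) (by linarith)
    have h5 := (Qf_diff S (z := 1 / 2 + t * I + w0 * u) (by linarith)).hasDerivAt
    have h6 := hQ2 _ hre
    have h7 : HasDerivAt (fun u : ℂ => (1 / 2 + t * I + w0 * u : ℂ)) w0 u := by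
      have := ((hasDerivAt_id u).const_mul (w0 : ℂ)).const_add (1 / 2 + t * I : ℂ)
      simpa using this
    have h8 := HasDerivAt.comp u hd1 h7
    have h9 := HasDerivAt.comp u h5 h7
    have h10 := (h8.add h9).const_mul (w0 : ℂ)
    refine ⟨_, h10, ?_⟩
    have hC' : ‖d‖ ≤ C := by
      refine hd2.trans ?_
      rw [div_le_iff₀ (by linarith)]
      nlinarith
    rw [norm_mul, ← add_mul, norm_mul, Complex.norm_real, Real.norm_eq_abs, abs_of_pos hw0]
    have hQ20 : 0 ≤ C + Q2 := by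
      have := (norm_nonneg _).trans h6
      linarith
    calc w0 * (‖d + deriv (Qf Λ γ) (1 / 2 + t * I + w0 * u)‖ * w0)
        ≤ w0 * ((C + Q2) * R) := by
          gcongr
          exact (norm_add_le _ _).trans (add_le_add hC' h6)
      _ ≤ w0 * (κ * ℓ) := by
          rw [mul_comm (C + Q2)]
          gcongr
      _ = κ * n := by rw [← hwℓ]; ring
  · intro u hu1 hu2
    show ‖Λ (1 / 2 + w0 * (cc (t / w0) + u - 1 / 2))‖ ≤ _
    rw [hcc]
    have hu1' := abs_le.mp hu1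
    rcases le_total 0 u.re with h | h
    · exact hup u h hu1'.2 hu2
    · have h4 := hup (-conj u) (by simp [h]) (by simp; linarith) (by simpa using hu2)
      have e1 : Λ (1 / 2 + t * I + w0 * u) = ε * conj (Λ (1 / 2 + t * I + w0 * (-conj u))) := by
        rw [hfe]
        congr 3
        simp only [map_add, map_mul, Complex.conj_ofReal, Complex.conj_I, map_div₀, map_one, map_ofNat]
        ring
      rw [e1, norm_mul, hε, one_mul, Complex.norm_conj]
      have e2 : |(-conj u).re| = |u.re| := by simp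
      rwa [e2] at h4
  · intro x hx0 hx1
    show _ ≤ ‖Λ (1 / 2 + w0 * (cc (t / w0) + ((x + 1 : ℝ) : ℂ) - 1 / 2))‖
    rw [hcc]
    set z := (1 / 2 + t * I + w0 * ((x + 1 : ℝ) : ℂ) : ℂ) with hz
    have hzr : z.re = 1 / 2 + w0 * (x + 1) := by rw [hz, hzre, ofReal_re]
    have hσz : σ ≤ z.re := by rw [hzr]; nlinarith
    have hx4 : |(((x + 1 : ℝ) : ℂ)).re| ≤ 4 := by
      rw [ofReal_re, abs_le]
      constructor <;> linarith
    have hx2 : |(((x + 1 : ℝ) : ℂ)).im| ≤ 2 := by rw [ofReal_im, abs_zero]; norm_num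
    have h4 := S.lo z hσz
    have h5 := hmove z (σ + t * I) (by linarith) (by rw [hσt]; exact hσ) (hdist _ hx4 hx2) hσd (by
        have e : (σ + t * I : ℂ) - z = ((σ - 1 / 2 : ℝ) : ℂ) - w0 * ((x + 1 : ℝ) : ℂ) := by
          rw [hz]
          push_cast; ring
        rw [e]
        refine (norm_sub_le _ _).trans ?_
        rw [Complex.norm_real, Real.norm_eq_abs, abs_of_nonneg (by linarith), hRm]
        linarith [hunorm _ hx4 hx2])
    rw [hσt, hzr, hGe] at h5
    -- G e^{ℓ(σ-1/2)} ≤ ‖γ z‖ e^{ℓ(σ - 1/2 - w0 (x+1)) + K}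
    have h6 : G * Real.exp (n * (x + 1)) ≤ ‖γ z‖ * Real.exp (C * (1 + Rm) * Rm) := by
      have e1 : ‖γ z‖ * Real.exp (ℓ * (σ - (1 / 2 + w0 * (x + 1))) + C * (1 + Rm) * Rm) =
          ‖γ z‖ * Real.exp (C * (1 + Rm) * Rm) * Real.exp (ℓ * (σ - 1 / 2) - n * (x + 1)) := by
        rw [mul_assoc ‖γ z‖, ← Real.exp_add, ← hwℓ]
        congr 2
        ring
      rw [e1] at h5
      have e2 : G * Real.exp (ℓ * (σ - 1 / 2)) = G * Real.exp (n * (x + 1)) *
          Real.exp (ℓ * (σ - 1 / 2) - n * (x + 1)) := by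
        rw [mul_assoc G, ← Real.exp_add]
        congr 2
        ring
      rw [e2] at h5
      exact le_of_mul_le_mul_right h5 (Real.exp_pos _)
    have h7 : G * Real.exp (n * (x + 1)) ≤ Real.exp (κ * n) * ‖Λ z‖ := by
      calc G * Real.exp (n * (x + 1)) ≤ ‖γ z‖ * Real.exp (C * (1 + Rm) * Rm) := h6
        _ ≤ (B * ‖Λ z‖) * Real.exp (C * (1 + Rm) * Rm) := by gcongr
        _ = (B * Real.exp (C * (1 + Rm) * Rm)) * ‖Λ z‖ := by ring
        _ ≤ Real.exp (κ * n) * ‖Λ z‖ := by gcongr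
    have e3 : G * Real.exp (n * (x + 1) - κ * n) = Real.exp (-(κ * n)) * (G * Real.exp (n * (x + 1))) := by
      rw [sub_eq_add_neg, Real.exp_add]
      ring
    rw [e3]
    calc Real.exp (-(κ * n)) * (G * Real.exp (n * (x + 1)))
        ≤ Real.exp (-(κ * n)) * (Real.exp (κ * n) * ‖Λ z‖) := by gcongr
      _ = ‖Λ z‖ := by rw [← mul_assoc, ← Real.exp_add]; simp

end Pool.Agent.J4H34.QD
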