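import Pool.Agent.J4H34.QD.A1

/-!
Zeros of the derivatives: the range `n ≥ (1/2 + η) ℓ`, `ℓ` the logarithmic derivative of the gamma factor,
when the logarithm of the Euler product is `O(√ℓ)` for `Re s ≥ 1 + η`.
-/

set_option autoImplicit false

open Complex Set MeasureTheory Filter Topology
open scoped ComplexConjugate Nat

namespace Pool.Agent.J4H34.QD

open H353.E H353.F

/-- the sharp theorem in the strip -/
theorem sharp_core2 (C B B' σ A₀ : ℝ) (Sg : ℝ → ℝ) (hC : 1 ≤ C) (hB : 1 ≤ B) (hσ : 1 ≤ σ) (hA₀ : 0 ≤ A₀) {η : ℝ}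
    (hη : 0 < η) : ∃ N : ℕ,
    ∀ (Λ γ D : ℂ → ℂ), LD C B' Sg Λ γ D →
    ∀ n : ℕ, N ≤ n → ∀ s : ℂ,
    (0 < (D (3 / 2 + s.im * I)).re → Sharp C (B * Real.exp (A₀ * Real.sqrt (D (3 / 2 + s.im * I)).re)) σ Sg Λ γ D ∧
      (∀ z : ℂ, σ + η / 2 ≤ z.re → ‖Qf Λ γ z‖ ≤ A₀ * Real.sqrt (D (3 / 2 + s.im * I)).re + A₀) ∧
      ∀ z : ℂ, σ + η / 2 ≤ z.re → ‖deriv (Qf Λ γ) z‖ ≤ A₀ * Real.sqrt (D (3 / 2 + s.im * I)).re + A₀) →
    (σ - 1 / 2 + η) * (D (3 / 2 + s.im * I)).re ≤ n →
    -(1 / 2) ≤ s.re → s.re ≤ 3 / 2 →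
    iteratedDeriv n Λ s = 0 → s.re = 1 / 2 ∧ iteratedDeriv (n + 1) Λ s ≠ 0 := by
  obtain ⟨R0, N0, hR0, H⟩ := core C B' Sg hC
  set δ : ℝ := min (1 / 2) (η / (2 * (σ - 1 / 2 + η))) with hδdef
  have hden : 0 < 2 * (σ - 1 / 2 + η) := by linarith
  have hδ : 0 < δ := lt_min (by norm_num) (by positivity)
  have hδ' : δ ≤ 1 / 2 := min_le_left _ _
  have hδ2 : δ * (2 * (σ - 1 / 2 + η)) ≤ η := by
    have : δ ≤ η / (2 * (σ - 1 / 2 + η)) := min_le_right _ _
    rwa [le_div_iff₀ hden] at this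
  set κ : ℝ := δ / 1000000 with hκdef
  have hκ : 0 < κ := by positivity
  set R : ℝ := 2 * R0 with hR
  have hR1 : 0 < R := by rw [hR]; linarith
  set Rm : ℝ := σ + 4 + 6 * R with hRm
  have hRm0 : 0 < Rm := by rw [hRm]; linarith
  set K2 : ℝ := C + C * (R0 + 1) with hK2
  have hK20 : 0 ≤ K2 := by rw [hK2]; nlinarith
  -- `A` bounds everything that does not grow, `A₁` the coefficient of the square root
  set A : ℝ := C * (1 + Rm) + A₀ + R * (C + A₀) + 2 * (Real.log B + C * (1 + Rm) * Rm) with hA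
  have hlogB : 0 ≤ Real.log B := Real.log_nonneg hB
  have hA1 : 0 ≤ A := by
    rw [hA]
    have : 0 ≤ C * (1 + Rm) * Rm := by positivity
    positivity
  set A₁ : ℝ := A₀ * (3 + R) with hA₁
  have hA₁0 : 0 ≤ A₁ := by positivity
  set K : ℝ := 2 * A / κ + (2 * A₁ / κ) ^ 2 + K2 + 1 with hK
  obtain ⟨N1, hN1⟩ := exists_nat_ge (R0 * (K + C + K2))
  obtain ⟨N3, hN3⟩ := exists_nat_ge (10000 / δ ^ 2)
  refine ⟨max (max N0 N1) (max N3 1000000000000), fun Λ γ D L n hn s hS hs h0 h1 hz => ?_⟩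
  have hnN0 : N0 ≤ n := (le_max_left _ _).trans ((le_max_left _ _).trans hn)
  have hnN1 : R0 * (K + C + K2) ≤ n :=
    hN1.trans (by exact_mod_cast (le_max_right _ _).trans ((le_max_left _ _).trans hn))
  have hnN3 : 10000 / δ ^ 2 ≤ n :=
    hN3.trans (by exact_mod_cast (le_max_left _ _).trans ((le_max_right _ _).trans hn))
  have hn12 : (1000000000000 : ℝ) ≤ n := by
    exact_mod_cast (le_max_right _ _).trans ((le_max_right _ _).trans hn)
  have hnpos : (0 : ℝ) < n := by linarith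
  have gp := L.gp
  set t := s.im with ht
  set ℓ := (D (3 / 2 + t * I)).re with hℓ
  have hs1 : (1 : ℝ) ≤ (3 / 2 + t * I : ℂ).re := by simp; norm_num
  have hℓC : -C ≤ ℓ := gp.re _ hs1
  have hDR : ‖D (1 / 2 + t * I + R0)‖ ≤ |ℓ| + K2 := by
    have hre : 1 ≤ (1 / 2 + t * I + (R0 : ℂ)).re := by simp; linarith
    have h4 := gp.lipD (ρ := 1) le_rfl hre hs1
    rw [div_one] at h4
    have h5 := gp.im _ hs1
    have h6 : ‖D (3 / 2 + t * I)‖ ≤ |ℓ| + C := (Complex.norm_le_abs_re_add_abs_im _).trans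
      (add_le_add le_rfl h5)
    have h7 : ‖(1 / 2 + t * I + (R0 : ℂ)) - (3 / 2 + t * I)‖ ≤ R0 + 1 := by
      have e : (1 / 2 + t * I + (R0 : ℂ)) - (3 / 2 + t * I) = ((R0 - 1 : ℝ) : ℂ) := by
        push_cast; ring
      rw [e, Complex.norm_real, Real.norm_eq_abs, abs_le]
      constructor <;> linarith
    calc ‖D (1 / 2 + t * I + R0)‖ = ‖(D (1 / 2 + t * I + R0) - D (3 / 2 + t * I)) + D (3 / 2 + t * I)‖ := by
          ring_nf
      _ ≤ ‖D (1 / 2 + t * I + R0) - D (3 / 2 + t * I)‖ + ‖D (3 / 2 + t * I)‖ := norm_add_le _ _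
      _ ≤ C * (R0 + 1) + (|ℓ| + C) := by
          refine add_le_add (h4.trans ?_) h6
          gcongr
      _ = |ℓ| + K2 := by rw [hK2]; ring
  have hK0 : 0 ≤ K := by rw [hK]; positivity
  rcases le_or_gt ℓ K with hlK | hlK
  · -- small `ℓ`
    refine H Λ γ D L n hnN0 s ?_ h0 h1 hz
    have : |ℓ| ≤ K + C := abs_le.mpr ⟨by linarith, by linarith⟩
    calc R0 * ‖D (1 / 2 + s.im * I + R0)‖ ≤ R0 * (|ℓ| + K2) := by
          gcongr
      _ ≤ R0 * (K + C + K2) := by gcongr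
      _ ≤ n := hnN1
  have hℓ0 : 0 < ℓ := by linarith
  rcases le_or_gt (R * ℓ) n with hRl | hRl
  · refine H Λ γ D L n hnN0 s ?_ h0 h1 hz
    have hK2l : K2 ≤ ℓ := by
      have : K2 ≤ K := by
        rw [hK]
        have h5 : 0 ≤ 2 * A / κ := by positivity
        have h6 : 0 ≤ (2 * A₁ / κ) ^ 2 := by positivity
        linarith
      linarith
    calc R0 * ‖D (1 / 2 + s.im * I + R0)‖ ≤ R0 * (|ℓ| + K2) := by
          gcongr
      _ = R0 * (ℓ + K2) := by rw [abs_of_pos hℓ0]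
      _ ≤ R0 * (ℓ + ℓ) := by gcongr
      _ = R * ℓ := by rw [hR]; ring
      _ ≤ n := hRl
  · obtain ⟨S, hQ1, hQ2⟩ := hS hℓ0
    set w0 : ℝ := n / ℓ with hw0
    have hwℓ : w0 * ℓ = n := by rw [hw0]; field_simp
    have hwR : w0 ≤ R := by
      rw [hw0, div_le_iff₀ hℓ0]
      exact hRl.le
    have hwlow : σ - 1 / 2 + η ≤ w0 := by
      rw [hw0, le_div_iff₀ hℓ0]
      exact hs
    have hw0pos : 0 < w0 := by linarith
    have hwδ : σ - 1 / 2 + η / 2 ≤ w0 * (1 - δ) := by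
      have : (σ - 1 / 2 + η) * (1 - δ) ≤ w0 * (1 - δ) := by
        have : 0 ≤ 1 - δ := by linarith
        gcongr
      nlinarith
    -- the main inequality
    set q := Real.sqrt ℓ with hq
    have hq0 : 0 < q := Real.sqrt_pos.mpr hℓ0
    have hq2 : q * q = ℓ := Real.mul_self_sqrt hℓ0.le
    have hmain : A + A₁ * q ≤ κ * ℓ := by
      have h5 : A ≤ κ * ℓ / 2 := by
        have h6 : 2 * A / κ ≤ ℓ := by
          have : 2 * A / κ ≤ K := by
            rw [hK]
            have h6 : 0 ≤ (2 * A₁ / κ) ^ 2 := by positivity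
            linarith
          linarith
        rw [div_le_iff₀ hκ] at h6
        linarith
      have h7 : A₁ * q ≤ κ * ℓ / 2 := by
        have h8 : 2 * A₁ / κ ≤ q := by
          rw [hq]
          apply Real.le_sqrt_of_sq_le
          have : (2 * A₁ / κ) ^ 2 ≤ K := by
            rw [hK]
            have h5 : 0 ≤ 2 * A / κ := by positivity
            linarith
          linarith
        rw [div_le_iff₀ hκ] at h8
        have h9 : 2 * A₁ * q ≤ (q * κ) * q := by gcongr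
        have h10 : (q * κ) * q = κ * ℓ := by rw [← hq2]; ring
        linarith
      linarith
    have hlogB' := hlogB
    have hCR : 0 ≤ C * (1 + Rm) * Rm := by positivity
    have hqA : 0 ≤ A₀ * q := by positivity
    have hqR : 0 ≤ R * (A₀ * q) := by positivity
    have hRC : 0 ≤ R * (C + A₀) := by positivity
    have hCR1 : 0 ≤ C * (1 + Rm) := by positivity
    have eA : A + A₁ * q = (C * (1 + Rm) + (A₀ * q + A₀)) + R * (C + (A₀ * q + A₀)) +
        2 * (Real.log B + A₀ * q + C * (1 + Rm) * Rm) := by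
      rw [hA, hA₁]; ring
    have hw1 : 1 / 2 ≤ w0 := by linarith
    have hκn : κ * ℓ / 2 ≤ κ * n := by
      rw [← hwℓ]
      have : κ * (1 / 2 * ℓ) ≤ κ * (w0 * ℓ) := by gcongr
      linarith
    have hnn : κ * ℓ ≤ κ * n + κ * n := by linarith
    have hL := loc_of2 S (δ := δ) (κ := κ) (R := R) (η := η / 2) (t := t) (w0 := w0) (ℓ := ℓ)
      (Rm := Rm) (n := n) hδ hδ' hκ.le le_rfl (by positivity) hwδ hwR hn12 hnN3 hℓ hwℓ hRm hQ1 hQ2
      (by
        have : 0 ≤ R * (C + (A₀ * q + A₀)) := by positivity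
        linarith) (by
        have : 0 ≤ C * (1 + Rm) + (A₀ * q + A₀) := by positivity
        linarith) (by
        have hBp : 0 < B := by linarith
        rw [show B * Real.exp (A₀ * q) * Real.exp (C * (1 + Rm) * Rm) =
          Real.exp (Real.log B + A₀ * q + C * (1 + Rm) * Rm) by
            rw [Real.exp_add, Real.exp_add, Real.exp_log hBp]]
        apply Real.exp_le_exp.mpr
        have h5 : 0 ≤ R * (C + (A₀ * q + A₀)) := by positivity
        linarith)
    set s' : ℂ := 1 / 2 + (s - 1 / 2) / w0 with hs'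
    have hw0c : (w0 : ℂ) ≠ 0 := by exact_mod_cast hw0pos.ne'
    have hback : (1 / 2 : ℂ) + w0 * (s' - 1 / 2) = s := by
      rw [hs']
      field_simp
      ring
    have hs're : s'.re - 1 / 2 = (s.re - 1 / 2) / w0 := by
      rw [hs', add_re, Complex.div_ofReal_re, sub_re]
      simp
    have hs'im : s'.im = t / w0 := by
      rw [hs', add_im, Complex.div_ofReal_im, sub_im]
      simp [ht]
    have hz' : iteratedDeriv n (fun s => Λ (1 / 2 + w0 * (s - 1 / 2))) s' = 0 := by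
      rw [scale_deriv S.diff, hback, hz, mul_zero]
    have hfin := hL.zeros hs'im (by
      rw [hs're, abs_div, abs_of_pos hw0pos, div_le_iff₀ hw0pos]
      have : |s.re - 1 / 2| ≤ 1 := abs_le.mpr ⟨by linarith, by linarith⟩
      linarith) hz'
    refine ⟨?_, fun hz1 => hfin.2 ?_⟩
    · have h5 := hfin.1
      rw [h5, sub_self] at hs're
      have : s.re - 1 / 2 = 0 := by
        rcases div_eq_zero_iff.mp hs're.symm with h | h
        · exact h
        · exact absurd h hw0pos.ne'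
      linarith
    · rw [scale_deriv S.diff, hback, hz1, mul_zero]

end Pool.Agent.J4H34.QD
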